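import Pool.Agent.V11186.Fermat.Main

namespace Pool.Agent.Results.MP_762bfd_nt.FullQuotient

open Pool.Agent.V11186.Fermat

/-- First part of Q1: the group `F / (D + ℤ[x] + P)` is isomorphic to a direct sum of countably
infinitely many copies of `ℚ`. -/
theorem result :
    dGroup ⊔ polyGroup ⊔ pGroup ≤ fermatGroup ∧
    Nonempty ((↥fermatGroup ⧸ (dGroup ⊔ polyGroup ⊔ pGroup).addSubgroupOf fermatGroup) ≃+
      (ℕ →₀ ℚ)) := by
  have h := quotient_main good_alg
  have h1 : fermatGroup ⊓ algGroup = fermatGroup := inf_eq_left.2 (fun f hf => hf.1)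
  have h2 : relGroup algGroup = dGroup ⊔ polyGroup ⊔ pGroup := by
    unfold relGroup
    rw [inf_eq_left.2 d_le_alg, inf_eq_left.2 p_le_alg]
  rw [h1, h2] at h
  exact h

end Pool.Agent.Results.MP_762bfd_nt.FullQuotient
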