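import Pool.Agent.V11186.Fermat.Main

namespace Pool.Agent.Results.MP_762bfd_nt.RationalQuotient

open Pool.Agent.V11186.Fermat

/-- Q2: the group `F_∅ / (D_∅ + ℤ[x] + P_∅)`, where the index `∅` denotes the intersection with
`ℚ(x)`, is isomorphic to a direct sum of countably infinitely many copies of `ℚ`. -/
theorem result :
    (dGroup ⊓ ratGroup) ⊔ polyGroup ⊔ (pGroup ⊓ ratGroup) ≤ fermatGroup ⊓ ratGroup ∧
    Nonempty ((↥(fermatGroup ⊓ ratGroup) ⧸
      ((dGroup ⊓ ratGroup) ⊔ polyGroup ⊔ (pGroup ⊓ ratGroup)).addSubgroupOf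
        (fermatGroup ⊓ ratGroup)) ≃+ (ℕ →₀ ℚ)) :=
  quotient_main good_rat

end Pool.Agent.Results.MP_762bfd_nt.RationalQuotient
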